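import Pool.Agent.Helper22.XL.Defs

/-!
# XL, block D2: the moments of the random sum at the worst centre are bounded
-/

open MeasureTheory Real Set Filter Topology

set_option autoImplicit false

namespace Pool.Agent.Helper13.XL

open Pool.Agent.Helper22.AE
open Pool.Agent.Helper22.AC (cntc)
open Pool.Agent.Helper93.EX (Mx ak prim sn fJ)
open Pool.Agent.Helper60.AD
open Pool.Agent.Helper22.XL

/-- the pointwise bound -/
theorem pt {J : ℕ} (hJ : 1 ≤ J) {e m : ℝ × ℝ → ℝ} {X R v : ℝ} (hX : 0 < X) (hR : X ≤ R)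
    (hv : ∀ c, |e c - sqrt R * m c| ^ (2 * J) ≤ v) :
    ENNReal.ofReal ((⨆ c : ℝ × ℝ, |m c|) ^ (2 * J)) ≤
      ENNReal.ofReal (2 ^ (2 * J - 1) * (X ^ J)⁻¹) *
        ((⨆ c : ℝ × ℝ, ENNReal.ofReal (|e c| ^ (2 * J))) + ENNReal.ofReal v) := by
  have hXJ : 0 < X ^ J := pow_pos hX J
  have hv0 : 0 ≤ v := (by positivity : (0 : ℝ) ≤ |e 0 - sqrt R * m 0| ^ (2 * J)).trans (hv 0)
  have hk0 : (0 : ℝ) < 2 ^ (2 * J - 1) * (X ^ J)⁻¹ := by positivity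
  by_cases htop : (⨆ c : ℝ × ℝ, ENNReal.ofReal (|e c| ^ (2 * J))) = ⊤
  · rw [htop, top_add, ENNReal.mul_top (by simpa using hk0)]
    exact le_top
  obtain ⟨s, hs⟩ : ∃ s : ℝ, s = (⨆ c : ℝ × ℝ, ENNReal.ofReal (|e c| ^ (2 * J))).toReal := ⟨_, rfl⟩
  have hs0 : 0 ≤ s := hs ▸ ENNReal.toReal_nonneg
  have hse : (⨆ c : ℝ × ℝ, ENNReal.ofReal (|e c| ^ (2 * J))) = ENNReal.ofReal s := by
    rw [hs, ENNReal.ofReal_toReal htop]
  have hsc : ∀ c, |e c| ^ (2 * J) ≤ s := by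
    intro c
    have h1 : ENNReal.ofReal (|e c| ^ (2 * J)) ≤ ENNReal.ofReal s := by
      rw [← hse]
      exact le_iSup (fun c : ℝ × ℝ => ENNReal.ofReal (|e c| ^ (2 * J))) c
    exact (ENNReal.ofReal_le_ofReal_iff hs0).1 h1
  rw [hse, ← ENNReal.ofReal_add hs0 hv0, ← ENNReal.ofReal_mul hk0.le]
  refine ENNReal.ofReal_le_ofReal ?_
  obtain ⟨K, hK⟩ : ∃ K : ℝ, K = 2 ^ (2 * J - 1) * (X ^ J)⁻¹ * (s + v) := ⟨_, rfl⟩
  have hK0 : 0 ≤ K := by rw [hK]; positivity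
  rw [← hK]
  have h2J : 2 * J ≠ 0 := by omega
  have hR0 : 0 ≤ R := hX.le.trans hR
  have hc : ∀ c, |m c| ^ (2 * J) ≤ K := by
    intro c
    have h1 : |sqrt R * m c| ≤ |e c| + |e c - sqrt R * m c| := by
      have h2 : sqrt R * m c = e c - (e c - sqrt R * m c) := by ring
      calc |sqrt R * m c| = |e c - (e c - sqrt R * m c)| := by rw [← h2]
        _ ≤ |e c| + |e c - sqrt R * m c| := abs_sub _ _
    have h2 : |sqrt R * m c| ^ (2 * J) ≤ 2 ^ (2 * J - 1) * (s + v) := by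
      refine (pow_le_pow_left₀ (abs_nonneg _) h1 _).trans ?_
      refine (add_pow_le (abs_nonneg _) (abs_nonneg _) _).trans ?_
      exact mul_le_mul_of_nonneg_left (add_le_add (hsc c) (hv c)) (by positivity)
    have h3 : |sqrt R * m c| ^ (2 * J) = R ^ J * |m c| ^ (2 * J) := by
      rw [abs_mul, mul_pow, abs_of_nonneg (Real.sqrt_nonneg R), pow_mul, Real.sq_sqrt hR0]
    have h4 : X ^ J * |m c| ^ (2 * J) ≤ 2 ^ (2 * J - 1) * (s + v) := by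
      refine le_trans ?_ (h3 ▸ h2)
      exact mul_le_mul_of_nonneg_right (pow_le_pow_left₀ hX.le hR J) (by positivity)
    rw [hK]
    calc |m c| ^ (2 * J) = (X ^ J)⁻¹ * (X ^ J * |m c| ^ (2 * J)) := by
          rw [← mul_assoc, inv_mul_cancel₀ hXJ.ne', one_mul]
      _ ≤ (X ^ J)⁻¹ * (2 ^ (2 * J - 1) * (s + v)) :=
          mul_le_mul_of_nonneg_left h4 (inv_nonneg.2 hXJ.le)
      _ = 2 ^ (2 * J - 1) * (X ^ J)⁻¹ * (s + v) := by ring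
  have h5 : (⨆ c : ℝ × ℝ, |m c|) ≤ K ^ ((2 * J : ℕ) : ℝ)⁻¹ := by
    refine ciSup_le fun c => ?_
    have h6 := Real.rpow_le_rpow (by positivity) (hc c) (z := ((2 * J : ℕ) : ℝ)⁻¹) (by positivity)
    rwa [Real.pow_rpow_inv_natCast (abs_nonneg _) h2J] at h6
  have h6 : 0 ≤ (⨆ c : ℝ × ℝ, |m c|) := Real.iSup_nonneg fun c => abs_nonneg _
  calc (⨆ c : ℝ × ℝ, |m c|) ^ (2 * J) ≤ (K ^ ((2 * J : ℕ) : ℝ)⁻¹) ^ (2 * J) :=
        pow_le_pow_left₀ h6 h5 _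
    _ = K := Real.rpow_inv_natCast_pow hK0 h2J

/-- (D2) over (A3) -/
theorem bs_of_tail_of {H : ℝ → ℝ}
    (hkw : ∀ (N : ℕ) {φ : ℝ → ℝ}, Continuous φ → ∀ ε : ℝ, 0 < ε → ∃ X₀ : ℝ, 1 ≤ X₀ ∧
      ∀ X : ℝ, X₀ ≤ X →
        |X⁻¹ * (∫ R in Icc X (2 * X), φ (⨆ c : ℝ × ℝ, |Mx H N R c|)) - mS N φ H| ≤ ε)
    {J : ℕ} (hJ : 3 ≤ J)
    (hT : ∀ η : ℝ, 0 < η → ∃ n1 : ℕ, ∀ n0 : ℕ, n1 ≤ n0 → ∃ N₂ : ℕ, ∀ N : ℕ, N₂ ≤ N →
      ∃ V : ℝ → ℝ, Measurable V ∧ IntegrableOn V (Icc ((2 : ℝ) ^ N) (2 * 2 ^ N)) ∧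
      (∀ R ∈ Icc ((2 : ℝ) ^ N) (2 * 2 ^ N), ∀ c : ℝ × ℝ,
        |cntc H c R - area H * R ^ 2 - sqrt R * Mx H (2 ^ n0) R c| ^ (2 * J) ≤ V R) ∧
      (∀ R, 0 ≤ V R) ∧ ∫ R in Icc ((2 : ℝ) ^ N) (2 * 2 ^ N), V R ≤ η * ((2 : ℝ) ^ N) ^ (J + 1))
    (hM : ∃ C : ℝ, ∀ X : ℝ, 1 ≤ X →
      Pool.Agent.Helper92.MM.mom J H X ≤ ENNReal.ofReal (C * X ^ (1 + J))) : BS J H := by
  obtain ⟨C0, hC0⟩ := hM
  obtain ⟨C, hC, hMC⟩ : ∃ C : ℝ, 0 ≤ C ∧ ∀ X : ℝ, 1 ≤ X →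
      Pool.Agent.Helper92.MM.mom J H X ≤ ENNReal.ofReal (C * X ^ (1 + J)) := by
    refine ⟨max C0 0, le_max_right _ _, fun X hX => (hC0 X hX).trans (ENNReal.ofReal_le_ofReal ?_)⟩
    exact mul_le_mul_of_nonneg_right (le_max_left _ _) (by positivity)
  obtain ⟨n1, hn1⟩ := hT 1 one_pos
  obtain ⟨B, hB⟩ : ∃ B : ℝ, B = 2 ^ (2 * J - 1) * (C + 1) := ⟨_, rfl⟩
  have hB0 : 0 ≤ B := by rw [hB]; positivity
  have key : ∀ n0 : ℕ, n1 ≤ n0 → mS (2 ^ n0) (fun y => y ^ (2 * J)) H ≤ B + 1 := by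
    intro n0 hn0
    obtain ⟨N₂, hN₂⟩ := hn1 n0 hn0
    obtain ⟨X₀, hX₀, hk⟩ := hkw (2 ^ n0) (φ := fun y => y ^ (2 * J)) (by fun_prop) 1 one_pos
    obtain ⟨N, hN, hNX⟩ : ∃ N : ℕ, N₂ ≤ N ∧ X₀ ≤ (2 : ℝ) ^ N := by
      obtain ⟨N', hN'⟩ := pow_unbounded_of_one_lt X₀ (one_lt_two : (1 : ℝ) < 2)
      exact ⟨max N₂ N', le_max_left _ _, hN'.le.trans
        (pow_le_pow_right₀ one_le_two (le_max_right _ _))⟩
    obtain ⟨V, hVm, hVi, hV, hV0, hVint⟩ := hN₂ N hN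
    obtain ⟨X, hX⟩ : ∃ X : ℝ, X = (2 : ℝ) ^ N := ⟨_, rfl⟩
    rw [← hX] at hVi hV hVint hNX
    have hX1 : 1 ≤ X := hX₀.trans hNX
    have hX0 : 0 < X := lt_of_lt_of_le one_pos hX1
    have h1 := hk X hNX
    -- the mean
    have h2 : ∫ R in Icc X (2 * X), (⨆ c : ℝ × ℝ, |Mx H (2 ^ n0) R c|) ^ (2 * J) ≤ B * X := by
      by_cases hi : Integrable (fun R => (⨆ c : ℝ × ℝ, |Mx H (2 ^ n0) R c|) ^ (2 * J))
          (volume.restrict (Icc X (2 * X)))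
      swap
      · rw [integral_undef hi]
        positivity
      have h3 : ENNReal.ofReal (∫ R in Icc X (2 * X),
          (⨆ c : ℝ × ℝ, |Mx H (2 ^ n0) R c|) ^ (2 * J)) ≤ ENNReal.ofReal (B * X) := by
        rw [ofReal_integral_eq_lintegral_ofReal hi (Eventually.of_forall fun R =>
          pow_nonneg (Real.iSup_nonneg fun c => abs_nonneg _) _)]
        calc ∫⁻ R in Icc X (2 * X), ENNReal.ofReal ((⨆ c : ℝ × ℝ, |Mx H (2 ^ n0) R c|) ^ (2 * J))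
            ≤ ∫⁻ R in Icc X (2 * X), ENNReal.ofReal (2 ^ (2 * J - 1) * (X ^ J)⁻¹) *
              ((⨆ c : ℝ × ℝ, ENNReal.ofReal (|cntc H c R - area H * R ^ 2| ^ (2 * J))) +
                ENNReal.ofReal (V R)) := by
              refine setLIntegral_mono' measurableSet_Icc fun R hR => ?_
              exact pt (by omega) hX0 hR.1 (hV R hR)
          _ = ENNReal.ofReal (2 ^ (2 * J - 1) * (X ^ J)⁻¹) *
              (Pool.Agent.Helper92.MM.mom J H X + ∫⁻ R in Icc X (2 * X), ENNReal.ofReal (V R)) := by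
              rw [lintegral_const_mul' _ _ ENNReal.ofReal_ne_top,
                lintegral_add_right _ hVm.ennreal_ofReal]
              rfl
          _ ≤ ENNReal.ofReal (2 ^ (2 * J - 1) * (X ^ J)⁻¹) *
              (ENNReal.ofReal (C * X ^ (1 + J)) + ENNReal.ofReal (1 * X ^ (J + 1))) := by
              gcongr
              · exact hMC X hX1
              · rw [← ofReal_integral_eq_lintegral_ofReal hVi (Eventually.of_forall hV0)]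
                exact ENNReal.ofReal_le_ofReal hVint
          _ = ENNReal.ofReal (B * X) := by
              rw [← ENNReal.ofReal_add (by positivity) (by positivity),
                ← ENNReal.ofReal_mul (by positivity)]
              congr 1
              rw [hB]
              have hXJ : X ^ J ≠ 0 := (pow_pos hX0 J).ne'
              field_simp
              ring
      exact (ENNReal.ofReal_le_ofReal_iff (by positivity)).1 h3
    have h3 : X⁻¹ * ∫ R in Icc X (2 * X), (⨆ c : ℝ × ℝ, |Mx H (2 ^ n0) R c|) ^ (2 * J) ≤ B := by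
      calc X⁻¹ * ∫ R in Icc X (2 * X), (⨆ c : ℝ × ℝ, |Mx H (2 ^ n0) R c|) ^ (2 * J)
          ≤ X⁻¹ * (B * X) := mul_le_mul_of_nonneg_left h2 (inv_nonneg.2 hX0.le)
        _ = B := by field_simp
    have h4 := (abs_le.1 h1).1
    linarith
  obtain ⟨C', hC'⟩ := exists_nat_ge (B + 1)
  refine ⟨max C' n1, fun N hN => ?_⟩
  refine (key N ((le_max_right _ _).trans hN)).trans (hC'.trans ?_)
  exact_mod_cast le_max_left _ _

end Pool.Agent.Helper13.XL
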