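import Pool.Agent.Helper13.XL.Bs
import Pool.Agent.Helper88.XL.TailP
import Pool.Agent.Helper73.XL.KWM

/-!
# XL, block D2, word by word
-/

open MeasureTheory Real Set Filter Topology

set_option autoImplicit false

namespace Pool.Agent.Helper13.XL

open Pool.Agent.Helper22.AE
open Pool.Agent.Helper22.AC (cntc)
open Pool.Agent.Helper93.EX (Mx ak prim sn fJ)
open Pool.Agent.Helper60.AD
open Pool.Agent.Helper22.XL

/-- D2: deterministic, from the tail of order `J` with `η = 1`, the moment bound and `kwS` with `φ = y^(2J)` -/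
theorem bs_of_tail {H : ℝ → ℝ} (hH : ContDiff ℝ 2 H) (hp : Function.Periodic H (2 * π)) (hr : ∀ θ, 0 < H θ + deriv (deriv H) θ) (hL : LI H)
    {J : ℕ} (hJ : 3 ≤ J) (hT : TailP J H)
    (hM : ∃ C : ℝ, ∀ X : ℝ, 1 ≤ X → Pool.Agent.Helper92.MM.mom J H X ≤ ENNReal.ofReal (C * X ^ (1 + J))) : BS J H :=
  bs_of_tail_of (fun N _ hφ => Pool.Agent.Helper73.XL.kwS hL N hφ) hJ hT hM

end Pool.Agent.Helper13.XL
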